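import Pool.Agent.Q70.AgD

/-!
# The affine orbit of a counterexample grows with exponent one

Let `p` be a prime, `q ≥ 2` an integer which `p` does not divide, and let `μ` be an atomless
probability measure on `T = ℝ / ℤ`, invariant under `x ↦ p x` and `x ↦ q x`, which is not Lebesgue
measure. Nothing is assumed on ergodicity or entropy. In both statements the scales `N` fill
intervals `[M, M ^ c]`, with `c` as large as one wishes.

1. Let `0 ≤ 2 β < α`. No probability measure `ν` has `N ^ α` reduced fractions `n / d` with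
   `1 ≤ |n| ≤ N` and `1 ≤ d ≤ N ^ β` for which the image of `ν` under `x ↦ d x` is a translate of
   the image of `μ` under `x ↦ n x`.
2. The measures `n_* μ`, `1 ≤ n ≤ N`, fall into at least `N ^ (1 - α)` classes up to translation,
   for every `α > 0`.
-/

set_option autoImplicit false

open MeasureTheory Set

namespace Pool.Agent.Results.MP_96e181_an.AffineOrbitGrowth

theorem result (p q : ℕ) (hp : p.Prime) (hq : 2 ≤ q) (hpq : ¬ p ∣ q)
    (μ : Measure UnitAddCircle) [IsProbabilityMeasure μ]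
    (hμp : MeasurePreserving (fun x : UnitAddCircle => p • x) μ μ)
    (hμq : MeasurePreserving (fun x : UnitAddCircle => q • x) μ μ)
    (hat : ∀ x, μ {x} = 0) (hne : μ ≠ volume) :
    -- 1. coincidences of rational multiples, up to translation
    (∀ α β : ℝ, 0 ≤ β → 2 * β < α → ∀ c N₀ : ℕ, ∃ M : ℕ, N₀ ≤ M ∧ ∀ N : ℕ, M ≤ N → N ≤ M ^ c →
      ∀ ν : Measure UnitAddCircle, IsProbabilityMeasure ν →
        (({s : ℤ × ℕ | s.1 ≠ 0 ∧ |s.1| ≤ N ∧ 1 ≤ s.2 ∧ (s.2 : ℝ) ≤ (N : ℝ) ^ β ∧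
          s.1.gcd s.2 = 1 ∧ ∃ t : UnitAddCircle,
            μ.map (fun x : UnitAddCircle => s.1 • x + t) =
              ν.map (fun x : UnitAddCircle => s.2 • x)}).ncard : ℝ) < (N : ℝ) ^ α) ∧
    -- 2. the number of the images `n_* μ` up to translation
    (∀ α : ℝ, 0 < α → ∀ c N₀ : ℕ, ∃ M : ℕ, N₀ ≤ M ∧ ∀ N : ℕ, M ≤ N → N ≤ M ^ c →
      ∀ F : Finset (Measure UnitAddCircle),
        (∀ n : ℕ, 1 ≤ n → n ≤ N → ∃ ν ∈ F, ∃ t : UnitAddCircle,
          μ.map (fun x : UnitAddCircle => n • x + t) = ν) →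
        (N : ℝ) ^ (1 - α) ≤ F.card) :=
  ⟨fun _ _ hβ hαβ c N₀ => Q70.Ag.growth hp hq hpq ⟨hμp, hμq⟩ hat hne hβ hαβ c N₀,
    fun _ hα c N₀ => Q70.Ag.classes hp hq hpq ⟨hμp, hμq⟩ hat hne hα c N₀⟩

end Pool.Agent.Results.MP_96e181_an.AffineOrbitGrowth
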