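import Pool.Agent.Q123.CW.Out

/-!
# A counterexample to Furstenberg's conjecture is singular to its convolution with every atomless
invariant measure

Let `S` be a set of natural numbers that is closed under multiplication and contains some `p ≥ 2`,
for example the semigroup generated by `p` and `q`. Let `μ` be a probability measure on the circle
that is invariant and ergodic for the multiplications by the elements of `S` and that is not
Lebesgue measure. Then for every atomless probability measure `ν` that is invariant under these
multiplications, `μ * ν` and `(-μ) * ν` are singular to `μ`: the law of `y + x` and the law of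
`y - x` are singular to `μ` when `x` has law `μ`, `y` has law `ν` and `x`, `y` are independent.
-/

set_option autoImplicit false

open MeasureTheory

namespace Pool.Agent.Results.MP_96e181_an.AtomlessConvolution

theorem result (S : Set ℕ) (hS : ∀ m ∈ S, ∀ n ∈ S, m * n ∈ S) (p : ℕ) (hp : 2 ≤ p) (hpS : p ∈ S)
    (μ : Measure UnitAddCircle) [IsProbabilityMeasure μ]
    (hμ : ∀ n ∈ S, MeasurePreserving (fun x : UnitAddCircle => n • x) μ μ)
    (herg : ∀ A : Set UnitAddCircle, MeasurableSet A →
      (∀ n ∈ S, (fun x : UnitAddCircle => n • x) ⁻¹' A = A) → μ A = 0 ∨ μ A = 1)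
    (hne : μ ≠ volume)
    (ν : Measure UnitAddCircle) [IsProbabilityMeasure ν]
    (hν : ∀ n ∈ S, MeasurePreserving (fun x : UnitAddCircle => n • x) ν ν)
    (hna : ∀ y, ν {y} = 0) :
    (Measure.conv μ ν) ⟂ₘ μ ∧ (Measure.conv (μ.map fun x => -x) ν) ⟂ₘ μ :=
  Q123.CW.singular ⟨⟨p, hpS⟩, hS, hμ, herg⟩ hp hpS hν hna hne

end Pool.Agent.Results.MP_96e181_an.AtomlessConvolution
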