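import Pool.Agent.Q83.FL.E

/-! # Level sets of the Fourier coefficients of `×p`-invariant measures

Let `μ` be a probability measure on the circle, invariant under `x ↦ p x`, and let `δ = |μ^(m)| > 0`
for some `m ≠ 0`.  No ergodicity, no entropy, no second map.

1. For all `k ≥ 1` and `t < 1` at least `C (log N)^(2k)` of the frequencies `1 ≤ n ≤ N` satisfy
   `|μ^(n)| ≥ t δ^(2k)`.
2. If `μ` is invariant under `x ↦ q x` for all `q` in a finite set `Q` (for instance `Q = {p, q}`),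
   at least `C (log N)^(2k - |Q|)` of these frequencies are divisible by no element of `Q`.  (Orbits
   of a frequency under the semigroup generated by `Q` have at most `C (log N)^|Q|` elements below
   `N`; so there are arbitrarily large powers of `log N` of different orbits.)
3. If there is one `A` such that for every `ε > 0` the number of the `n ≤ N`, divisible by no
   element of `Q`, with `|μ^(n)| ≥ ε` is at most `C (log N)^A` for arbitrarily large `N`, then `μ`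
   is Lebesgue measure.
4. The exponent in 1. is exact for every `p ≥ 3` and every `k`: for the Riesz product
   `∏ (1 + cos (2 π p^i x))`, which has `δ = |μ^(1)| = 1/2`, at most `C (log N)^k` frequencies have
   `|μ^(n)| ≥ t δ^k`, `t > 1/2`.
5. For every `p ≥ 2` there is an invariant measure other than Lebesgue measure all of whose level
   sets are bounded by powers of `log N` (depending on the level), so that 3. cannot be improved for
   one map.

Proof of 1.: the `2k`-th moment of `∑_{i < K} e (m P^i x)`, `P = p²`, is at least `(K δ)^(2k)`, and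
it is the sum of the coefficients of `μ` at the `K^(2k)` frequencies
`m (P^(i_1) + ⋯ + P^(i_k) - P^(j_1) - ⋯ - P^(j_k))`; digits `-1, 0, 1` in base `P` are unique.
-/

open MeasureTheory Filter

namespace Pool.Agent.Results.MP_96e181_an.FourierLevelSets

/-- The Fourier coefficient `∫ e(n x) dμ(x)`. -/
noncomputable def coef (μ : Measure UnitAddCircle) (n : ℤ) : ℂ := ∫ x, (fourier n x : ℂ) ∂μ

/-- `μ` is invariant under `x ↦ q x` for all `q` in `Q`. -/
def Invariant (Q : Finset ℕ) (μ : Measure UnitAddCircle) : Prop :=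
  ∀ q ∈ Q, MeasurePreserving (fun x : UnitAddCircle => q • x) μ μ

/-- The number of the `1 ≤ n ≤ N`, divisible by no element of `Q`, with `|μ^(n)| ≥ ε`. -/
noncomputable def levelCount (μ : Measure UnitAddCircle) (Q : Finset ℕ) (ε : ℝ) (N : ℕ) : ℕ :=
  Nat.card {n : ℕ // 1 ≤ n ∧ n ≤ N ∧ (∀ q ∈ Q, ¬ q ∣ n) ∧ ε ≤ ‖coef μ (n : ℤ)‖}

theorem levelCount_eq (μ : Measure UnitAddCircle) (Q : Finset ℕ) (ε : ℝ) (N : ℕ) :
    levelCount μ Q ε N = (Q83.FL.levR μ Q ε N).card := by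
  rw [levelCount]
  apply Nat.subtype_card
  intro n
  rw [Q83.FL.levR, Finset.mem_filter, Finset.mem_Icc, and_assoc]
  rfl

theorem levelCount_empty (μ : Measure UnitAddCircle) (ε : ℝ) (N : ℕ) :
    levelCount μ ∅ ε N = (Q83.FL.lev μ ε N).card := by
  rw [levelCount]
  apply Nat.subtype_card
  intro n
  rw [Q83.FL.lev, Finset.mem_filter, Finset.mem_Icc]
  constructor
  · intro h
    exact ⟨h.1.1, h.1.2, by simp, h.2⟩
  · intro h
    exact ⟨⟨h.1, h.2.1⟩, h.2.2.2⟩

theorem result :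
    -- 1. the level sets of one map
    (∀ p : ℕ, 2 ≤ p → ∀ μ : Measure UnitAddCircle, IsProbabilityMeasure μ → Invariant {p} μ →
      ∀ m : ℤ, m ≠ 0 → coef μ m ≠ 0 → ∀ k : ℕ, 1 ≤ k → ∀ t : ℝ, 0 < t → t < 1 →
        ∃ C : ℝ, 0 < C ∧ ∀ᶠ N : ℕ in atTop,
          C * (Real.log N) ^ (2 * k) ≤ levelCount μ ∅ (t * ‖coef μ m‖ ^ (2 * k)) N) ∧
    -- 2. several maps: frequencies divisible by none of the multipliers
    (∀ Q : Finset ℕ, Q.Nonempty → (∀ q ∈ Q, 2 ≤ q) → ∀ μ : Measure UnitAddCircle,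
      IsProbabilityMeasure μ → Invariant Q μ →
      ∀ m : ℤ, m ≠ 0 → coef μ m ≠ 0 → ∀ k : ℕ, 1 ≤ k → ∀ t : ℝ, 0 < t → t < 1 →
        ∃ C : ℝ, 0 < C ∧ ∀ᶠ N : ℕ in atTop,
          C * (Real.log N) ^ (2 * k) ≤
            (Real.log N) ^ Q.card * levelCount μ Q (t * ‖coef μ m‖ ^ (2 * k)) N) ∧
    -- 3. rigidity
    (∀ Q : Finset ℕ, Q.Nonempty → (∀ q ∈ Q, 2 ≤ q) → ∀ μ : Measure UnitAddCircle,
      IsProbabilityMeasure μ → Invariant Q μ →
      ∀ A : ℕ, (∀ ε : ℝ, 0 < ε → ∃ C : ℝ, ∃ᶠ N : ℕ in atTop,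
        (levelCount μ Q ε N : ℝ) ≤ C * (Real.log N) ^ A) → μ = volume) ∧
    -- 4. the exponent is exact
    (∀ p : ℕ, 3 ≤ p → ∃ μ : Measure UnitAddCircle, IsProbabilityMeasure μ ∧ Invariant {p} μ ∧
      coef μ 1 = 1 / 2 ∧ ∀ k : ℕ, ∀ t : ℝ, 1 / 2 < t → ∃ C : ℝ, ∀ N : ℕ, 2 ≤ N →
        (levelCount μ ∅ (t * ‖coef μ 1‖ ^ k) N : ℝ) ≤ C * (Real.log N) ^ k) ∧
    -- 5. no improvement of 3. for one map
    (∀ p : ℕ, 2 ≤ p → ∃ μ : Measure UnitAddCircle, IsProbabilityMeasure μ ∧ Invariant {p} μ ∧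
      μ ≠ volume ∧ ∀ ε : ℝ, 0 < ε → ∃ (A : ℕ) (C : ℝ), ∀ N : ℕ, 2 ≤ N →
        (levelCount μ ∅ ε N : ℝ) ≤ C * (Real.log N) ^ A) := by
  refine ⟨?_, ?_, ?_, ?_, ?_⟩
  · intro p hp μ hμ hinv m hm hδ k hk t ht0 ht
    have h1 := (Q241.FP.inv_iff {p} μ).mp hinv p (Finset.mem_singleton_self p)
    obtain ⟨C, hC, h⟩ := Q83.FL.lower_log μ hp h1 hm hδ hk ht0 ht
    refine ⟨C, hC, ?_⟩
    filter_upwards [h] with N hN
    rw [levelCount_empty]
    exact hN
  · intro Q hne hQ μ hμ hinv m hm hδ k hk t ht0 ht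
    obtain ⟨C, hC, h⟩ := Q83.FL.lower_log_reduced μ hQ ((Q241.FP.inv_iff Q μ).mp hinv) hne hm hδ
      hk ht0 ht
    refine ⟨C, hC, ?_⟩
    filter_upwards [h] with N hN
    rw [levelCount_eq]
    exact hN
  · intro Q hne hQ μ hμ hinv A h
    apply Q83.FL.rigid μ hQ ((Q241.FP.inv_iff Q μ).mp hinv) hne (A := A)
    intro ε hε
    obtain ⟨C, hC⟩ := h ε hε
    refine ⟨C, ?_⟩
    simp_rw [levelCount_eq] at hC
    exact hC
  · intro p hp
    have hp' : (3 : ℤ) ≤ (p : ℤ) := by exact_mod_cast hp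
    obtain ⟨ν, hν, h⟩ := Q83.FL.exists_riesz hp'
    have h1 : coef ν 1 = 1 / 2 := Q83.FL.riesz_one hp' h
    refine ⟨ν, hν, ?_, h1, ?_⟩
    · apply (Q241.FP.inv_iff {p} ν).mpr
      intro q hq n
      rw [Finset.mem_singleton] at hq
      rw [hq]
      exact Q83.FL.riesz_inv hp' h n
    · intro k t ht
      refine ⟨9 ^ k, fun N hN => ?_⟩
      rw [levelCount_empty]
      apply Q83.FL.riesz_upper hp h k _ N hN
      rw [h1, pow_succ]
      have h2 : ‖(1 / 2 : ℂ)‖ = 1 / 2 := by norm_num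
      rw [h2, mul_comm]
      exact mul_lt_mul_of_pos_right ht (by positivity)
  · intro p hp
    obtain ⟨μ, hμ, hinv, hne, h⟩ := Q83.FL.exists_small_levels hp
    refine ⟨μ, hμ, ?_, hne, ?_⟩
    · apply (Q241.FP.inv_iff {p} μ).mpr
      intro q hq n
      rw [Finset.mem_singleton] at hq
      rw [hq]
      exact hinv n
    · intro ε hε
      obtain ⟨A, C, hA⟩ := h ε hε
      refine ⟨A, C, fun N hN => ?_⟩
      rw [levelCount_empty]
      exact hA N hN

end Pool.Agent.Results.MP_96e181_an.FourierLevelSets
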