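import Mathlib
import Pool.Agent.Q190.SV.Ex

/-!
# Uniform slow variation of `×p, ×q` invariant measures near the torsion points

For `p, q` products of powers of two coprime numbers (for instance `p, q` coprime), the mass which
an invariant probability measure gives to the complement of the ball of radius `r` is a slowly
varying function of `log (1 / r)`, uniformly over ALL invariant probability measures: no ergodicity,
entropy or absence of atoms is assumed. The same holds for the averages of all conditionally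
negative definite functions on the integers which are invariant under `n ↦ p n` and `n ↦ q n`.
-/

set_option autoImplicit false

open MeasureTheory

namespace Pool.Agent.Results.MP_96e181_an.SlowVariation

open Pool.Agent.Q190.SV (CND)

/-- Let `p, q` be multiplicatively independent products of powers of two coprime numbers `u, v`.

(1) For all `C ≥ 1`, `ε > 0` there is `r₀ > 0` such that for every `0 < r ≤ r₀` and EVERY
probability measure `μ` on `R/Z` invariant under `x ↦ p x` and `x ↦ q x`: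
`μ {‖x‖ ≥ r ^ C} ≤ (1 + ε) μ {‖x‖ ≥ r}`,
`log (1 / r) μ {r / 2 ≤ ‖x‖ < r} ≤ ε μ {‖x‖ ≥ r}`, and
every ball of radius `r` is, up to mass `ε`, contained in a ball of radius `r ^ C`.

(2) For all `C ≥ 1`, `ε > 0` there is `N₀` such that for every conditionally negative definite
`ψ : ℤ → ℝ` with `ψ (p n) = ψ (q n) = ψ n` and every `N ≥ N₀`:
the average of `ψ` over `1, …, M` is at most `1 + ε` times the average over `1, …, N` for
`N ≤ M ≤ N ^ C`, and `ψ n` is at most `2 + ε` times this average for `n ≤ N ^ C`.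

(3) For every invariant probability measure `μ` the functions `ψ n = 1 - Re μ^(n)` and
`ψ n = 1 - |μ^(n)|²` are as in (2).

(4) One multiplier is not enough: for every `b, n ≥ 2` there is a probability measure invariant
under `x ↦ b x` with `μ {‖x‖ ≥ r ^ 2} = 2 μ {‖x‖ ≥ r} = 1`, where `r = b ^ (-n)`. -/
theorem result :
    (∀ p q : ℕ, (∃ u v a b c d : ℕ, 2 ≤ u ∧ 2 ≤ v ∧ Nat.Coprime u v ∧ p = u ^ a * v ^ b ∧
        q = u ^ c * v ^ d ∧ a * d ≠ b * c) →
      (∀ C ε : ℝ, 1 ≤ C → 0 < ε → ∃ r₀ : ℝ, 0 < r₀ ∧ r₀ < 1 ∧ ∀ r : ℝ, 0 < r → r ≤ r₀ →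
        ∀ μ : Measure UnitAddCircle, IsProbabilityMeasure μ →
          MeasurePreserving (fun x : UnitAddCircle => p • x) μ μ →
          MeasurePreserving (fun x : UnitAddCircle => q • x) μ μ →
            μ.real {x | r ^ C ≤ ‖x‖} ≤ (1 + ε) * μ.real {x | r ≤ ‖x‖} ∧
            Real.log (1 / r) * μ.real {x | r / 2 ≤ ‖x‖ ∧ ‖x‖ < r} ≤ ε * μ.real {x | r ≤ ‖x‖} ∧
            ∀ y : UnitAddCircle, ∃ y' : UnitAddCircle,
              μ.real (Metric.ball y r \ Metric.ball y' (r ^ C)) ≤ ε) ∧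
      (∀ C ε : ℝ, 1 ≤ C → 0 < ε → ∃ N₀ : ℕ, ∀ ψ : ℤ → ℝ, CND ψ →
        (∀ n : ℤ, ψ (n * p) = ψ n) → (∀ n : ℤ, ψ (n * q) = ψ n) → ∀ N : ℕ, N₀ ≤ N →
          (∀ M : ℕ, N ≤ M → (M : ℝ) ≤ (N : ℝ) ^ C →
            (1 / (M : ℝ)) * ∑ m ∈ Finset.range M, ψ ((m + 1 : ℕ) : ℤ) ≤
              (1 + ε) * ((1 / (N : ℝ)) * ∑ m ∈ Finset.range N, ψ ((m + 1 : ℕ) : ℤ))) ∧
          (∀ n : ℕ, (n : ℝ) ≤ (N : ℝ) ^ C →
            ψ n ≤ (2 + ε) * ((1 / (N : ℝ)) * ∑ m ∈ Finset.range N, ψ ((m + 1 : ℕ) : ℤ)))) ∧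
      (∀ μ : Measure UnitAddCircle, IsProbabilityMeasure μ →
        MeasurePreserving (fun x : UnitAddCircle => p • x) μ μ →
        MeasurePreserving (fun x : UnitAddCircle => q • x) μ μ →
          CND (fun n => 1 - (∫ x, fourier n x ∂μ).re) ∧
          CND (fun n => 1 - ‖∫ x, fourier n x ∂μ‖ ^ 2) ∧
          ∀ n : ℤ, ∫ x, fourier (n * p) x ∂μ = ∫ x, fourier n x ∂μ ∧
            ∫ x, fourier (n * q) x ∂μ = ∫ x, fourier n x ∂μ)) ∧
    (∀ b n : ℕ, 2 ≤ b → 2 ≤ n → ∃ μ : Measure UnitAddCircle, IsProbabilityMeasure μ ∧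
      MeasurePreserving (fun x : UnitAddCircle => b • x) μ μ ∧
        μ.real {x | (1 / (b : ℝ) ^ n) ^ 2 ≤ ‖x‖} = 1 ∧
        μ.real {x | 1 / (b : ℝ) ^ n ≤ ‖x‖} = 1 / 2) := by
  refine ⟨fun p q h => ?_, fun b n hb hn => Pool.Agent.Q190.SV.one_multiplier hb hn⟩
  have hT : Pool.Agent.H819.TwoGen p q := by
    obtain ⟨u, v, a, b, c, d, hu, hv, huv, hp, hq, hne⟩ := h
    exact ⟨u, v, a, b, c, d, hu, hv, huv, hp, hq, hne⟩
  refine ⟨fun C ε hC hε => ?_, fun C ε hC hε => ?_, fun μ hμ hp hq => ?_⟩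
  · obtain ⟨r1, hr1, hr1', h1⟩ := Pool.Agent.Q190.SV.slow_r hT (C := C) hε
    obtain ⟨r2, hr2, hr2', h2⟩ := Pool.Agent.Q190.SV.local_r hT hε
    obtain ⟨r3, hr3, hr3', h3⟩ := Pool.Agent.Q190.SV.arcs hT hC hε
    refine ⟨min r1 (min r2 r3), lt_min hr1 (lt_min hr2 hr3), (min_le_left _ _).trans_lt hr1', ?_⟩
    intro r hr hrr μ hμ hp hq
    refine ⟨h1 r hr (hrr.trans (min_le_left _ _)) μ hμ ⟨hp, hq⟩,
      h2 r hr (hrr.trans ((min_le_right _ _).trans (min_le_left _ _))) μ hμ ⟨hp, hq⟩, fun y => ?_⟩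
    obtain ⟨y', _, hy'⟩ := h3 r hr (hrr.trans ((min_le_right _ _).trans (min_le_right _ _))) μ hμ
      ⟨hp, hq⟩ y
    exact ⟨y', hy'⟩
  · obtain ⟨N0, _, h1⟩ := Pool.Agent.Q190.SV.cnd_slow hT hC hε
    exact ⟨N0, h1⟩
  · have key : ∀ k : ℕ, MeasurePreserving (fun x : UnitAddCircle => k • x) μ μ → ∀ n : ℤ,
        ∫ x, fourier (n * k) x ∂μ = ∫ x, fourier n x ∂μ := by
      intro k hk n
      simp only [← Pool.Agent.Q190.SV.fourier_nsmul]
      rw [← integral_map (f := fun x : UnitAddCircle => (fourier n x : ℂ)) hk.measurable.aemeasurable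
        (ContinuousMap.continuous _).aestronglyMeasurable, hk.map_eq]
    exact ⟨Pool.Agent.Q190.SV.cnd_one_sub μ, Pool.Agent.Q190.SV.cnd_one_sub_sq μ,
      fun n => ⟨key p hp n, key q hq n⟩⟩

end Pool.Agent.Results.MP_96e181_an.SlowVariation
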